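import Mathlib

/-!
# MP_550623_an: `I + T` need not be hypercyclic when `T` has dense range and dense generalized kernel

Negative answers to Q1 (mixing) and Q2 (hypercyclic), for real and for complex scalars.

The space is `ℓ¹` over the tree `Idx = List (ℕ × ℕ)`.  Below every vertex `u` there are blocks
`(l, 0) :: u, …, (l, 2l+1) :: u`: the vertices `(l, i) :: u`, `i ≤ 2l`, form a private nilpotent chain
(`T e_(l,i+1) = e_(l,i)`, `T e_(l,0) = 0`) and
`T e_(l,2l+1) = a_l (e_u + δ_l e_(l,2l))` if `l > p u`, with `δ_l = 1/(l+1)` and `a_l` tiny.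
So all `e_v` are nilpotent, and `e_u` is a limit of `T (e_(l,2l+1) / a_l)`.
For every `n` there is a bounded functional with value `1` at the root, values of modulus `≤ 1/4` at
the other vertices, whose composition with `(I + T)^n` has norm `≤ 1`: its values on the private
chains are the forward differences of the polynomial `∏_{s<l} (x-s)(n+s-x)`, which are small near
`0` and near `n` although the sum of the polynomial over `0, …, n-1` is huge.
Hence `|ε((I+T)^n z)| ≤ ‖z‖ + ‖(I+T)^n z‖/4` for the coordinate functional `ε` of the root, all `n`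
and all `z`, which excludes mixing and hypercyclicity.
-/

open Filter Topology Polynomial
open scoped ENNReal

namespace Pool.Agent.Results.MP_550623_an.NotHypercyclic

/-! ### The polynomials -/

/-- The polynomial `∏_{s<l} (x-s)(n+s-x)`. -/
noncomputable def pol (n l : ℕ) : ℝ[X] :=
  ∏ s ∈ Finset.range l, ((X - C (s : ℝ)) * (C ((n : ℝ) + s) - X))

/-- Its iterated forward differences. -/
noncomputable def D (n l k : ℕ) : ℝ → ℝ := (fwdDiff (1 : ℝ))^[k] (pol n l).eval

lemma pol_eval (n l : ℕ) (x : ℝ) :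
    (pol n l).eval x = ∏ s ∈ Finset.range l, ((x - s) * (n + s - x)) := by
  unfold pol
  rw [Polynomial.eval_prod]
  simp

lemma pol_natDegree (n l : ℕ) : (pol n l).natDegree < 2 * l + 1 := by
  have h : (pol n l).natDegree ≤ ∑ s ∈ Finset.range l,
      ((X - C (s : ℝ)) * (C ((n : ℝ) + s) - X)).natDegree := Polynomial.natDegree_prod_le _ _
  have h2 : ∀ s ∈ Finset.range l, ((X - C (s : ℝ)) * (C ((n : ℝ) + s) - X)).natDegree ≤ 2 := by
    intro s _
    refine (Polynomial.natDegree_mul_le).trans ?_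
    have h3 : (X - C (s : ℝ)).natDegree ≤ 1 := (Polynomial.natDegree_X_sub_C_le _)
    have h4 : (C ((n : ℝ) + s) - X).natDegree ≤ 1 := by
      have := Polynomial.natDegree_sub_le (C ((n : ℝ) + s)) X
      rw [Polynomial.natDegree_C, Polynomial.natDegree_X] at this
      exact this
    omega
  have h5 := Finset.sum_le_sum h2
  simp only [Finset.sum_const, Finset.card_range, smul_eq_mul] at h5
  omega

lemma D_zero (n l : ℕ) (x : ℝ) : D n l 0 x = ∏ s ∈ Finset.range l, ((x - s) * (n + s - x)) := by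
  rw [← pol_eval]; rfl

lemma D_succ (n l k : ℕ) (x : ℝ) : D n l (k + 1) x = D n l k (x + 1) - D n l k x := by
  unfold D
  rw [Function.iterate_succ_apply']
  rfl

lemma D_top (n l : ℕ) (x : ℝ) : D n l (2 * l + 1) x = 0 := by
  unfold D
  rw [Polynomial.fwdDiff_iter_eq_zero_of_degree_lt (pol_natDegree n l)]
  rfl

lemma D_bound (n l : ℕ) (B : ℝ) : ∀ (k : ℕ) (x : ℝ), (∀ i ≤ k, |D n l 0 (x + i)| ≤ B) →
    |D n l k x| ≤ 2 ^ k * B := by
  intro k
  induction k with
  | zero => intro x h; simpa using h 0 le_rfl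
  | succ k ih =>
    intro x h
    rw [D_succ]
    have h1 := ih x (fun i hi => h i (by omega))
    have h2 := ih (x + 1) (fun i hi => by
      have := h (i + 1) (by omega)
      push_cast at this
      rwa [add_assoc, add_comm (1 : ℝ)])
    calc |D n l k (x + 1) - D n l k x| ≤ |D n l k (x + 1)| + |D n l k x| := abs_sub _ _
      _ ≤ 2 ^ k * B + 2 ^ k * B := add_le_add h2 h1
      _ = 2 ^ (k + 1) * B := by ring

/-- Bound near `0`. -/
lemma D0_bound_zero (n l : ℕ) (hn : 1 ≤ n) (i : ℕ) (hi : i ≤ 2 * l) :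
    |D n l 0 (0 + (i : ℝ))| ≤ ((2 * l + 1) ^ 2 * n) ^ l := by
  rw [D_zero, Finset.abs_prod]
  have hn' : (1 : ℝ) ≤ n := by exact_mod_cast hn
  have hi' : (i : ℝ) ≤ 2 * l := by exact_mod_cast hi
  have : ∀ s ∈ Finset.range l, |((0 + (i : ℝ) - s) * (n + s - (0 + (i : ℝ))))| ≤
      (2 * l + 1) ^ 2 * n := by
    intro s hs
    have hs' : (s : ℝ) ≤ l := by exact_mod_cast (Finset.mem_range.mp hs).le
    have hs0 : (0 : ℝ) ≤ s := by positivity
    have hi0 : (0 : ℝ) ≤ i := by positivity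
    have hl0 : (0 : ℝ) ≤ l := by positivity
    rw [abs_mul]
    have h1 : |(0 + (i : ℝ) - s)| ≤ 2 * l + 1 := by rw [abs_le]; constructor <;> linarith
    have h2 : |((n : ℝ) + s - (0 + (i : ℝ)))| ≤ (2 * l + 1) * n := by
      rw [abs_le]; constructor <;> nlinarith
    calc _ ≤ (2 * (l : ℝ) + 1) * ((2 * l + 1) * n) := by gcongr
      _ = _ := by ring
  calc ∏ s ∈ Finset.range l, |((0 + (i : ℝ) - s) * (n + s - (0 + (i : ℝ))))| ≤
      ∏ s ∈ Finset.range l, (((2 * l + 1) ^ 2 * n : ℝ)) :=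
        Finset.prod_le_prod (fun _ _ => abs_nonneg _) this
    _ = _ := by simp

/-- Bound near `n`. -/
lemma D0_bound_n (n l : ℕ) (hn : 1 ≤ n) (i : ℕ) (hi : i ≤ 2 * l) :
    |D n l 0 ((n : ℝ) + (i : ℝ))| ≤ ((2 * l + 1) ^ 2 * n) ^ l := by
  rw [D_zero, Finset.abs_prod]
  have hn' : (1 : ℝ) ≤ n := by exact_mod_cast hn
  have hi' : (i : ℝ) ≤ 2 * l := by exact_mod_cast hi
  have : ∀ s ∈ Finset.range l, |(((n : ℝ) + (i : ℝ) - s) * (n + s - ((n : ℝ) + (i : ℝ))))| ≤
      (2 * l + 1) ^ 2 * n := by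
    intro s hs
    have hs' : (s : ℝ) ≤ l := by exact_mod_cast (Finset.mem_range.mp hs).le
    have hs0 : (0 : ℝ) ≤ s := by positivity
    have hi0 : (0 : ℝ) ≤ i := by positivity
    have hl0 : (0 : ℝ) ≤ l := by positivity
    rw [abs_mul]
    have h1 : |((n : ℝ) + s - ((n : ℝ) + (i : ℝ)))| ≤ 2 * l + 1 := by
      rw [abs_le]; constructor <;> linarith
    have h2 : |((n : ℝ) + (i : ℝ) - s)| ≤ (2 * l + 1) * n := by
      rw [abs_le]; constructor <;> nlinarith
    calc _ ≤ ((2 * (l : ℝ) + 1) * n) * (2 * l + 1) := by gcongr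
      _ = _ := by ring
  calc ∏ s ∈ Finset.range l, |(((n : ℝ) + (i : ℝ) - s) * (n + s - ((n : ℝ) + (i : ℝ))))| ≤
      ∏ s ∈ Finset.range l, (((2 * l + 1) ^ 2 * n : ℝ)) :=
        Finset.prod_le_prod (fun _ _ => abs_nonneg _) this
    _ = _ := by simp

/-- The polynomial is nonnegative on `{0, …, n-1}`. -/
lemma D0_nonneg (n l j : ℕ) (hj : j < n) : 0 ≤ D n l 0 (j : ℝ) := by
  rw [D_zero]
  rcases lt_or_ge j l with h | h
  · apply le_of_eq
    symm
    apply Finset.prod_eq_zero (Finset.mem_range.mpr h)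
    simp
  · apply Finset.prod_nonneg
    intro s hs
    have hs' : (s : ℝ) ≤ j := by exact_mod_cast (Finset.mem_range.mp hs).le.trans h
    have hj' : (j : ℝ) < n := by exact_mod_cast hj
    have hs0 : (0 : ℝ) ≤ s := by positivity
    exact mul_nonneg (by linarith) (by linarith)

lemma sum_lower (n l : ℕ) (hn : 4 * (l + 1) ≤ n) :
    ((n : ℝ) / 8) ^ (2 * l + 1) ≤ ∑ j ∈ Finset.range n, D n l 0 (j : ℝ) := by
  set m := n / 4 with hm
  have hm1 : 4 * m ≤ n := Nat.mul_div_le n 4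
  have hm2 : n < 4 * m + 4 := by omega
  have hm3 : l + 1 ≤ m := by omega
  have hsub : Finset.Ico (2 * m) (3 * m) ⊆ Finset.range n := by
    intro j hj
    rw [Finset.mem_Ico] at hj
    rw [Finset.mem_range]
    omega
  have h1 : ∑ j ∈ Finset.Ico (2 * m) (3 * m), D n l 0 (j : ℝ) ≤
      ∑ j ∈ Finset.range n, D n l 0 (j : ℝ) :=
    Finset.sum_le_sum_of_subset_of_nonneg hsub
      (fun j hj _ => D0_nonneg n l j (Finset.mem_range.mp hj))
  have hmR : (l : ℝ) + 1 ≤ m := by exact_mod_cast hm3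
  have hm1R : 4 * (m : ℝ) ≤ n := by exact_mod_cast hm1
  have h2 : ∀ j ∈ Finset.Ico (2 * m) (3 * m), ((m : ℝ) * m) ^ l ≤ D n l 0 (j : ℝ) := by
    intro j hj
    rw [Finset.mem_Ico] at hj
    have hj1 : 2 * (m : ℝ) ≤ j := by exact_mod_cast hj.1
    have hj2 : (j : ℝ) ≤ 3 * m := by exact_mod_cast hj.2.le
    rw [D_zero]
    calc ((m : ℝ) * m) ^ l = ∏ s ∈ Finset.range l, ((m : ℝ) * m) := by simp
      _ ≤ _ := by
        apply Finset.prod_le_prod
        · intro s _; positivity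
        · intro s hs
          have hs' : (s : ℝ) ≤ l := by exact_mod_cast (Finset.mem_range.mp hs).le
          have hs0 : (0 : ℝ) ≤ s := by positivity
          have hm0 : (0 : ℝ) ≤ m := by positivity
          apply mul_le_mul <;> nlinarith
  have h3 := Finset.sum_le_sum h2
  rw [Finset.sum_const, Nat.card_Ico, nsmul_eq_mul] at h3
  have h4 : 3 * m - 2 * m = m := by omega
  rw [h4] at h3
  have h5 : ((n : ℝ) / 8) ≤ m := by
    have : (n : ℝ) ≤ 4 * m + 4 := by exact_mod_cast hm2.le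
    have hl : (0 : ℝ) ≤ l := by positivity
    linarith
  calc ((n : ℝ) / 8) ^ (2 * l + 1) ≤ (m : ℝ) ^ (2 * l + 1) := by gcongr
    _ = (m : ℝ) * ((m : ℝ) * m) ^ l := by ring
    _ ≤ _ := h3.trans h1

/-! ### The constants -/

/-- Threshold. -/
def K (l : ℕ) : ℕ := (l + 1) * 8 ^ (2 * l + 1) * 4 ^ (l + 1) * (2 * l + 1) ^ (2 * l)

/-- Weight of the edge to the parent. -/
noncomputable def a (l : ℕ) : ℝ := 1 / (2 * (K l : ℝ) ^ l)

/-- Size of the private junk. -/
noncomputable def δ (l : ℕ) : ℝ := 1 / (l + 1)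

/-- Normalising constant. -/
noncomputable def c (n l : ℕ) : ℝ := 1 / (4 ^ (l + 1) * ((2 * l + 1) ^ 2 * n) ^ l)

/-- Normalised differences. -/
noncomputable def G (n l k : ℕ) (j : ℕ) : ℝ := c n l * D n l k (j : ℝ)

/-- Sum of the normalised polynomial. -/
noncomputable def W (n l : ℕ) : ℝ := ∑ j ∈ Finset.range n, G n l 0 j

lemma K_pos (l : ℕ) : 1 ≤ K l := by
  unfold K
  have : 0 < (l + 1) * 8 ^ (2 * l + 1) * 4 ^ (l + 1) * (2 * l + 1) ^ (2 * l) := by positivity
  omega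

lemma four_le_K (l : ℕ) : 4 * (l + 1) ≤ K l := by
  unfold K
  have h1 : 1 ≤ 8 ^ (2 * l + 1) := Nat.one_le_pow _ _ (by norm_num)
  have h2 : 4 ≤ 4 ^ (l + 1) := by
    calc 4 = 4 ^ 1 := by norm_num
      _ ≤ 4 ^ (l + 1) := Nat.pow_le_pow_right (by norm_num) (by omega)
  have h3 : 1 ≤ (2 * l + 1) ^ (2 * l) := Nat.one_le_pow _ _ (by omega)
  calc 4 * (l + 1) = (l + 1) * 1 * 4 * 1 := by ring
    _ ≤ (l + 1) * 8 ^ (2 * l + 1) * 4 ^ (l + 1) * (2 * l + 1) ^ (2 * l) := by gcongr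

lemma a_pos (l : ℕ) : 0 < a l := by
  have : (0 : ℝ) < K l := by exact_mod_cast K_pos l
  unfold a; positivity

lemma a_le (l : ℕ) : a l ≤ 1 / 2 := by
  have h : (1 : ℝ) ≤ K l := by exact_mod_cast K_pos l
  have h2 : (1 : ℝ) ≤ (K l : ℝ) ^ l := one_le_pow₀ h
  unfold a
  apply one_div_le_one_div_of_le (by norm_num)
  linarith

lemma a_mul (l : ℕ) : a l * (K l : ℝ) ^ l = 1 / 2 := by
  have h : (0 : ℝ) < K l := by exact_mod_cast K_pos l
  unfold a
  field_simp

lemma δ_pos (l : ℕ) : 0 < δ l := by unfold δ; positivity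

lemma δ_le (l : ℕ) : δ l ≤ 1 := by
  unfold δ
  rw [div_le_one (by positivity)]
  have : (0 : ℝ) ≤ l := by positivity
  linarith

lemma c_pos (n l : ℕ) (hn : 1 ≤ n) : 0 < c n l := by
  have h : (0 : ℝ) < n := by exact_mod_cast hn
  unfold c; positivity

lemma G_succ (n l k j : ℕ) : G n l k (j + 1) = G n l k j + G n l (k + 1) j := by
  unfold G
  rw [D_succ]
  push_cast
  ring

lemma G_top (n l j : ℕ) : G n l (2 * l + 1) j = 0 := by
  unfold G
  rw [D_top, mul_zero]

lemma G_zero_bound (n l k : ℕ) (hn : 1 ≤ n) (hk : k ≤ 2 * l) : |G n l k 0| ≤ 1 / 4 := by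
  have h1 := D_bound n l (((2 * l + 1) ^ 2 * n) ^ l) k 0
    (fun i hi => D0_bound_zero n l hn i (hi.trans hk))
  unfold G
  rw [abs_mul, abs_of_pos (c_pos n l hn)]
  have hn' : (0 : ℝ) < n := by exact_mod_cast hn
  have h2 : (2 : ℝ) ^ k ≤ 4 ^ l := by
    calc (2 : ℝ) ^ k ≤ 2 ^ (2 * l) := pow_le_pow_right₀ (by norm_num) hk
      _ = 4 ^ l := by rw [pow_mul]; norm_num
  have h3 : |D n l k ((0 : ℕ) : ℝ)| ≤ 4 ^ l * ((2 * l + 1) ^ 2 * n) ^ l := by
    rw [Nat.cast_zero]
    refine h1.trans ?_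
    gcongr
  calc c n l * |D n l k ((0 : ℕ) : ℝ)| ≤ c n l * (4 ^ l * ((2 * l + 1) ^ 2 * n) ^ l) := by
        have := (c_pos n l hn).le
        gcongr
    _ = 1 / 4 := by
        unfold c
        field_simp
        ring

lemma G_n_bound (n l k : ℕ) (hn : 1 ≤ n) (hk : k ≤ 2 * l) : |G n l k n| ≤ 1 / 4 := by
  have h1 := D_bound n l (((2 * l + 1) ^ 2 * n) ^ l) k n
    (fun i hi => D0_bound_n n l hn i (hi.trans hk))
  unfold G
  rw [abs_mul, abs_of_pos (c_pos n l hn)]
  have hn' : (0 : ℝ) < n := by exact_mod_cast hn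
  have h2 : (2 : ℝ) ^ k ≤ 4 ^ l := by
    calc (2 : ℝ) ^ k ≤ 2 ^ (2 * l) := pow_le_pow_right₀ (by norm_num) hk
      _ = 4 ^ l := by rw [pow_mul]; norm_num
  have h3 : |D n l k (n : ℝ)| ≤ 4 ^ l * ((2 * l + 1) ^ 2 * n) ^ l := by
    refine h1.trans ?_
    gcongr
  calc c n l * |D n l k (n : ℝ)| ≤ c n l * (4 ^ l * ((2 * l + 1) ^ 2 * n) ^ l) := by
        have := (c_pos n l hn).le
        gcongr
    _ = 1 / 4 := by
        unfold c
        field_simp
        ring

/-- Growth of the normalised differences. -/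
lemma G_growth (n l : ℕ) (hn : 1 ≤ n) : ∀ (i : ℕ), i ≤ 2 * l → ∀ j : ℕ,
    |G n l (2 * l - i) j| ≤ (1 + (j : ℝ)) ^ i := by
  intro i
  induction i with
  | zero =>
    intro _ j
    have h : ∀ j : ℕ, G n l (2 * l) j = G n l (2 * l) 0 := by
      intro j
      induction j with
      | zero => rfl
      | succ j ih => rw [G_succ, G_top, add_zero, ih]
    rw [Nat.sub_zero, h, pow_zero]
    exact (G_zero_bound n l (2 * l) hn le_rfl).trans (by norm_num)
  | succ i ih =>
    intro hi j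
    have ih' := ih (by omega)
    have he : 2 * l - i = 2 * l - (i + 1) + 1 := by omega
    rw [he] at ih'
    have key : ∀ j : ℕ, |G n l (2 * l - (i + 1)) j| ≤ 1 / 4 + j * (1 + (j : ℝ)) ^ i := by
      intro j
      induction j with
      | zero =>
        simpa using G_zero_bound n l (2 * l - (i + 1)) hn (by omega)
      | succ j ihj =>
        rw [G_succ]
        have h1 := ih' j
        have h2 : (1 + (j : ℝ)) ^ i ≤ (1 + ((j + 1 : ℕ) : ℝ)) ^ i := by
          push_cast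
          gcongr
          linarith
        calc |G n l (2 * l - (i + 1)) j + G n l (2 * l - (i + 1) + 1) j| ≤
            |G n l (2 * l - (i + 1)) j| + |G n l (2 * l - (i + 1) + 1) j| := abs_add_le _ _
          _ ≤ (1 / 4 + j * (1 + (j : ℝ)) ^ i) + (1 + (j : ℝ)) ^ i := add_le_add ihj h1
          _ = 1 / 4 + (j + 1) * (1 + (j : ℝ)) ^ i := by ring
          _ ≤ _ := by
            push_cast at h2 ⊢
            gcongr
    refine (key j).trans ?_
    have h3 : (1 : ℝ) ≤ (1 + (j : ℝ)) ^ i := one_le_pow₀ (by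
      have : (0 : ℝ) ≤ j := by positivity
      linarith)
    calc 1 / 4 + j * (1 + (j : ℝ)) ^ i ≤ (1 + (j : ℝ)) ^ i + j * (1 + (j : ℝ)) ^ i := by linarith
      _ = _ := by ring

lemma W_lower (n l : ℕ) (hn : K l ≤ n) : (n : ℝ) ^ l ≤ δ l * W n l := by
  have hn1 : 1 ≤ n := (K_pos l).trans hn
  have hn4 : 4 * (l + 1) ≤ n := (four_le_K l).trans hn
  have h1 := sum_lower n l hn4
  have hW : W n l = c n l * ∑ j ∈ Finset.range n, D n l 0 (j : ℝ) := by
    unfold W G
    rw [Finset.mul_sum]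
  rw [hW]
  have hn' : (0 : ℝ) < n := by exact_mod_cast hn1
  have hcp := c_pos n l hn1
  have hdp := δ_pos l
  have hKR : (K l : ℝ) ≤ n := by exact_mod_cast hn
  have hKpos : (0 : ℝ) < K l := by exact_mod_cast K_pos l
  calc (n : ℝ) ^ l ≤ (n : ℝ) ^ l * (n / K l) := by
        have : 1 ≤ (n : ℝ) / K l := by rw [le_div_iff₀ hKpos]; linarith
        have h0 : (0 : ℝ) ≤ (n : ℝ) ^ l := by positivity
        nlinarith
    _ = δ l * (c n l * ((n : ℝ) / 8) ^ (2 * l + 1)) := by
        unfold δ c K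
        push_cast
        rw [div_pow, mul_pow ((2 * (l : ℝ) + 1) ^ 2) (n : ℝ) l, ← pow_mul]
        field_simp
        ring
    _ ≤ δ l * (c n l * ∑ j ∈ Finset.range n, D n l 0 (j : ℝ)) := by gcongr

/-! ### The functionals -/

/-- The index set: finite sequences of pairs (a tree with root `[]`). -/
abbrev Idx := List (ℕ × ℕ)

/-- Growth exponent of a vertex. -/
def p : Idx → ℕ
  | [] => 0
  | (l, i) :: u => p u + 2 * l + i + 1

/-- The cancelling coefficient. -/
noncomputable def θ (n l q : ℕ) (s : ℝ) : ℝ :=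
  if K l ≤ n ∧ q < l then -s / (δ l * W n l) else 0

/-- `F n v j` is the value of the `n`-th functional at `(1 + T)^j e_v`. -/
noncomputable def F (n : ℕ) : Idx → ℕ → ℝ
  | [] => fun _ => 1
  | (l, i) :: u => fun j =>
      if i ≤ 2 * l then θ n l (p u) (∑ k ∈ Finset.range n, F n u k) * G n l (2 * l - i) j
      else if i = 2 * l + 1 ∧ p u < l then
        ∑ k' ∈ Finset.range j, a l * (F n u k' +
          δ l * (θ n l (p u) (∑ k ∈ Finset.range n, F n u k) * G n l 0 k'))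
      else 0

lemma F_nil (n j : ℕ) : F n [] j = 1 := rfl

lemma F_chain (n l i : ℕ) (u : Idx) (h : i ≤ 2 * l) (j : ℕ) : F n ((l, i) :: u) j =
    θ n l (p u) (∑ k ∈ Finset.range n, F n u k) * G n l (2 * l - i) j := by
  show (if i ≤ 2 * l then _ else _) = _
  rw [if_pos h]

lemma F_edge (n l : ℕ) (u : Idx) (h : p u < l) (j : ℕ) : F n ((l, 2 * l + 1) :: u) j =
    ∑ k' ∈ Finset.range j, a l * (F n u k' +
          δ l * (θ n l (p u) (∑ k ∈ Finset.range n, F n u k) * G n l 0 k')) := by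
  show (if 2 * l + 1 ≤ 2 * l then _ else if 2 * l + 1 = 2 * l + 1 ∧ p u < l then _ else _) = _
  rw [if_neg (by omega), if_pos ⟨rfl, h⟩]

lemma F_other (n l i : ℕ) (u : Idx) (h : ¬ i ≤ 2 * l) (h' : ¬ (i = 2 * l + 1 ∧ p u < l)) (j : ℕ) :
    F n ((l, i) :: u) j = 0 := by
  show (if i ≤ 2 * l then _ else if i = 2 * l + 1 ∧ p u < l then _ else _) = _
  rw [if_neg h, if_neg h']

lemma s_bound (n : ℕ) (u : Idx) (h : ∀ j, |F n u j| ≤ (1 + (j : ℝ)) ^ (p u)) :
    |∑ k ∈ Finset.range n, F n u k| ≤ (n : ℝ) ^ (p u + 1) := by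
  calc |∑ k ∈ Finset.range n, F n u k| ≤ ∑ k ∈ Finset.range n, |F n u k| :=
        Finset.abs_sum_le_sum_abs _ _
    _ ≤ ∑ k ∈ Finset.range n, (n : ℝ) ^ (p u) := by
        apply Finset.sum_le_sum
        intro k hk
        refine (h k).trans ?_
        have : 1 + (k : ℝ) ≤ n := by
          have := Finset.mem_range.mp hk
          have h2 : ((k + 1 : ℕ) : ℝ) ≤ n := by exact_mod_cast this
          push_cast at h2
          linarith
        gcongr
    _ = _ := by simp; ring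

lemma θ_bound (n l : ℕ) (u : Idx) (s : ℝ) (hn : 1 ≤ n) (hs : |s| ≤ (n : ℝ) ^ (p u + 1)) :
    |θ n l (p u) s| ≤ 1 := by
  unfold θ
  split_ifs with h
  · have h1 := W_lower n l h.1
    have hn' : (1 : ℝ) ≤ n := by exact_mod_cast hn
    have h2 : (n : ℝ) ^ (p u + 1) ≤ (n : ℝ) ^ l := pow_le_pow_right₀ hn' h.2
    have h3 : 0 < (n : ℝ) ^ l := by positivity
    have h4 : 0 < δ l * W n l := lt_of_lt_of_le h3 h1
    rw [abs_div, abs_neg, abs_of_pos h4, div_le_one h4]
    linarith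
  · simp

lemma F_bound (n : ℕ) (hn : 1 ≤ n) : ∀ (v : Idx) (j : ℕ), |F n v j| ≤ (1 + (j : ℝ)) ^ (p v) := by
  intro v
  induction v with
  | nil => intro j; rw [F_nil]; simp [p]
  | cons x u ih =>
    obtain ⟨l, i⟩ := x
    intro j
    have hθ := θ_bound n l u _ hn (s_bound n u ih)
    have hj : (1 : ℝ) ≤ 1 + j := by
      have : (0 : ℝ) ≤ j := by positivity
      linarith
    have hp : p ((l, i) :: u) = p u + 2 * l + i + 1 := rfl
    by_cases h : i ≤ 2 * l
    · rw [F_chain n l i u h, abs_mul, hp]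
      have h1 := G_growth n l hn i h j
      calc _ ≤ 1 * (1 + (j : ℝ)) ^ i := by gcongr
        _ = (1 + (j : ℝ)) ^ i := one_mul _
        _ ≤ _ := pow_le_pow_right₀ hj (by omega)
    · by_cases h' : i = 2 * l + 1 ∧ p u < l
      · obtain ⟨rfl, hl⟩ := h'
        rw [F_edge n l u hl, hp]
        set t := θ n l (p u) (∑ k ∈ Finset.range n, F n u k) with ht
        have hterm : ∀ k' ∈ Finset.range j, |a l * (F n u k' + δ l * (t * G n l 0 k'))| ≤
            (1 + (j : ℝ)) ^ (p u + 2 * l) := by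
          intro k' hk'
          have hk : (k' : ℝ) ≤ j := by exact_mod_cast (Finset.mem_range.mp hk').le
          have h1 := ih k'
          have h2 := G_growth n l hn (2 * l) le_rfl k'
          rw [Nat.sub_self] at h2
          have ha := a_pos l
          have ha2 := a_le l
          have hd := δ_pos l
          have hd2 := δ_le l
          have hk0 : (0 : ℝ) ≤ k' := by positivity
          have h3 : |F n u k'| ≤ (1 + (j : ℝ)) ^ (p u + 2 * l) := by
            refine h1.trans ?_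
            calc (1 + (k' : ℝ)) ^ (p u) ≤ (1 + (j : ℝ)) ^ (p u) := by gcongr
              _ ≤ _ := pow_le_pow_right₀ hj (by omega)
          have h4 : |G n l 0 k'| ≤ (1 + (j : ℝ)) ^ (p u + 2 * l) := by
            refine h2.trans ?_
            calc (1 + (k' : ℝ)) ^ (2 * l) ≤ (1 + (j : ℝ)) ^ (2 * l) := by gcongr
              _ ≤ _ := pow_le_pow_right₀ hj (by omega)
          have h5 : |δ l * (t * G n l 0 k')| ≤ (1 + (j : ℝ)) ^ (p u + 2 * l) := by
            rw [abs_mul, abs_mul, abs_of_pos hd]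
            calc δ l * (|t| * |G n l 0 k'|) ≤ 1 * (1 * (1 + (j : ℝ)) ^ (p u + 2 * l)) := by
                  gcongr
              _ = _ := by ring
          rw [abs_mul, abs_of_pos ha]
          have h6 := abs_add_le (F n u k') (δ l * (t * G n l 0 k'))
          have h7 : 0 ≤ (1 + (j : ℝ)) ^ (p u + 2 * l) := by positivity
          calc a l * |F n u k' + δ l * (t * G n l 0 k')| ≤
              1 / 2 * ((1 + (j : ℝ)) ^ (p u + 2 * l) + (1 + (j : ℝ)) ^ (p u + 2 * l)) := by
                gcongr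
                linarith
            _ = _ := by ring
        calc |∑ k' ∈ Finset.range j, a l * (F n u k' + δ l * (t * G n l 0 k'))| ≤
            ∑ k' ∈ Finset.range j, |a l * (F n u k' + δ l * (t * G n l 0 k'))| :=
              Finset.abs_sum_le_sum_abs _ _
          _ ≤ ∑ k' ∈ Finset.range j, (1 + (j : ℝ)) ^ (p u + 2 * l) := Finset.sum_le_sum hterm
          _ = j * (1 + (j : ℝ)) ^ (p u + 2 * l) := by simp
          _ ≤ (1 + j) * (1 + (j : ℝ)) ^ (p u + 2 * l) := by gcongr; linarith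
          _ = (1 + (j : ℝ)) ^ (p u + 2 * l + 1) := by ring
          _ ≤ _ := pow_le_pow_right₀ hj (by omega)
      · rw [F_other n l i u h h']
        simp only [abs_zero]
        positivity

lemma F_zero (n : ℕ) (hn : 1 ≤ n) (v : Idx) (hv : v ≠ []) : |F n v 0| ≤ 1 / 4 := by
  match v, hv with
  | (l, i) :: u, _ =>
    have hθ := θ_bound n l u _ hn (s_bound n u (F_bound n hn u))
    by_cases h : i ≤ 2 * l
    · rw [F_chain n l i u h, abs_mul]
      have := G_zero_bound n l (2 * l - i) hn (by omega)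
      calc _ ≤ 1 * (1 / 4 : ℝ) := by gcongr
        _ = 1 / 4 := one_mul _
    · by_cases h' : i = 2 * l + 1 ∧ p u < l
      · obtain ⟨rfl, hl⟩ := h'
        rw [F_edge n l u hl]
        simp
      · rw [F_other n l i u h h']
        simp

lemma F_n (n : ℕ) (hn : 1 ≤ n) (v : Idx) : |F n v n| ≤ 1 := by
  match v with
  | [] => rw [F_nil]; simp
  | (l, i) :: u =>
    have hs := s_bound n u (F_bound n hn u)
    have hθ := θ_bound n l u _ hn hs
    by_cases h : i ≤ 2 * l
    · rw [F_chain n l i u h, abs_mul]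
      have := G_n_bound n l (2 * l - i) hn (by omega)
      calc _ ≤ 1 * (1 / 4 : ℝ) := by gcongr
        _ ≤ 1 := by norm_num
    · by_cases h' : i = 2 * l + 1 ∧ p u < l
      · obtain ⟨rfl, hl⟩ := h'
        rw [F_edge n l u hl]
        set s := ∑ k ∈ Finset.range n, F n u k with hsdef
        have hsum : ∑ k' ∈ Finset.range n, a l * (F n u k' + δ l * (θ n l (p u) s * G n l 0 k')) =
            a l * (s + δ l * (θ n l (p u) s * W n l)) := by
          rw [← Finset.mul_sum, Finset.sum_add_distrib, ← Finset.mul_sum, ← Finset.mul_sum]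
          rfl
        rw [hsum]
        have hn' : (1 : ℝ) ≤ n := by exact_mod_cast hn
        by_cases hK : K l ≤ n
        · have h1 := W_lower n l hK
          have h3 : 0 < (n : ℝ) ^ l := by positivity
          have h4 : 0 < δ l * W n l := lt_of_lt_of_le h3 h1
          have h5 : s + δ l * (θ n l (p u) s * W n l) = 0 := by
            unfold θ
            rw [if_pos ⟨hK, hl⟩]
            have h6 : δ l ≠ 0 := (δ_pos l).ne'
            have h7 : W n l ≠ 0 := fun h => by rw [h, mul_zero] at h4; exact lt_irrefl _ h4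
            field_simp
            ring
          rw [h5, mul_zero, abs_zero]
          norm_num
        · have h5 : θ n l (p u) s = 0 := by
            unfold θ
            rw [if_neg (fun h => hK h.1)]
          rw [h5, zero_mul, mul_zero, add_zero, abs_mul, abs_of_pos (a_pos l)]
          have hnK : (n : ℝ) ≤ K l := by exact_mod_cast (not_le.mp hK).le
          have h6 : |s| ≤ (K l : ℝ) ^ l := by
            refine hs.trans ?_
            calc (n : ℝ) ^ (p u + 1) ≤ (n : ℝ) ^ l := pow_le_pow_right₀ hn' hl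
              _ ≤ _ := by gcongr
          have ha := a_pos l
          calc a l * |s| ≤ a l * (K l : ℝ) ^ l := by gcongr
            _ = 1 / 2 := a_mul l
            _ ≤ 1 := by norm_num
      · rw [F_other n l i u h h']
        simp

/-! ### The space and the operator -/

section space

/-- The space `ℓ¹` over the index set. -/
abbrev X (𝕜 : Type*) [RCLike 𝕜] := lp (fun _ : Idx => 𝕜) 1

variable {𝕜 : Type*} [RCLike 𝕜]

/-- The unit vectors. -/
noncomputable def e (v : Idx) : X 𝕜 := lp.single 1 v (1 : 𝕜)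

lemma norm_e (v : Idx) : ‖(e v : X 𝕜)‖ = 1 := by
  unfold e
  rw [lp.norm_single one_pos]
  exact norm_one

lemma hasSum_e (z : X 𝕜) : HasSum (fun v => z v • (e v : X 𝕜)) z := by
  have h := lp.hasSum_single (p := 1) (by norm_num) z
  have h2 : (fun v => z v • (e v : X 𝕜)) = fun v => lp.single 1 v (z v) := by
    ext v w
    unfold e
    rw [lp.coeFn_smul, Pi.smul_apply, lp.single_apply, lp.single_apply]
    by_cases hvw : w = v
    · subst hvw; simp
    · simp [hvw]
  rw [h2]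
  exact h

lemma summable_norm (z : X 𝕜) : Summable fun v => ‖z v‖ := by
  have h := (lp.memℓp z).summable (by norm_num)
  simpa using h

lemma norm_eq (z : X 𝕜) : ‖z‖ = ∑' v, ‖z v‖ := by
  have h := lp.norm_eq_tsum_rpow (p := 1) (by norm_num) z
  simpa using h

lemma op_bound {Y : Type*} [NormedAddCommGroup Y] [NormedSpace 𝕜 Y] (L : X 𝕜 →L[𝕜] Y) (M : ℝ)
    (h : ∀ v, ‖L (e v)‖ ≤ M) (z : X 𝕜) : ‖L z‖ ≤ M * ‖z‖ := by
  have h1 : HasSum (fun v => L (z v • (e v : X 𝕜))) (L z) := L.hasSum (hasSum_e z)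
  have h2 : ∀ v, ‖L (z v • (e v : X 𝕜))‖ ≤ M * ‖z v‖ := by
    intro v
    rw [map_smul, norm_smul, mul_comm]
    exact mul_le_mul_of_nonneg_right (h v) (norm_nonneg _)
  have h3 : HasSum (fun v => M * ‖z v‖) (M * ‖z‖) := by
    rw [norm_eq]
    exact (summable_norm z).hasSum.mul_left M
  rw [← h1.tsum_eq]
  exact tsum_of_norm_bounded h3 h2

lemma exists_lift {Y : Type*} [NormedAddCommGroup Y] [NormedSpace 𝕜 Y] [CompleteSpace Y]
    (t : Idx → Y) (M : ℝ) (h : ∀ v, ‖t v‖ ≤ M) : ∃ L : X 𝕜 →L[𝕜] Y, ∀ v, L (e v) = t v := by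
  have hb : ∀ (z : X 𝕜) v, ‖z v • t v‖ ≤ M * ‖z v‖ := by
    intro z v
    rw [norm_smul, mul_comm]
    exact mul_le_mul_of_nonneg_right (h v) (norm_nonneg _)
  have hs : ∀ z : X 𝕜, Summable fun v => z v • t v := fun z =>
    Summable.of_norm_bounded ((summable_norm z).mul_left M) (hb z)
  let L0 : X 𝕜 →ₗ[𝕜] Y :=
    { toFun := fun z => ∑' v, z v • t v
      map_add' := fun z w => by
        rw [← (hs z).tsum_add (hs w)]
        congr 1
        ext v
        rw [lp.coeFn_add, Pi.add_apply, add_smul]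
      map_smul' := fun r z => by
        rw [RingHom.id_apply, ← (hs z).tsum_const_smul]
        congr 1
        ext v
        rw [lp.coeFn_smul, Pi.smul_apply, smul_assoc] }
  have hL : ∀ z, ‖L0 z‖ ≤ M * ‖z‖ := by
    intro z
    have h3 : HasSum (fun v => M * ‖z v‖) (M * ‖z‖) := by
      rw [norm_eq]
      exact (summable_norm z).hasSum.mul_left M
    exact tsum_of_norm_bounded h3 (hb z)
  refine ⟨L0.mkContinuous M hL, fun v => ?_⟩
  show ∑' w, (e v : X 𝕜) w • t w = t v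
  rw [tsum_eq_single v]
  · unfold e
    rw [lp.single_apply]
    simp
  · intro w hw
    unfold e
    rw [lp.single_apply]
    simp [hw]


lemma mem_closure_span (z : X 𝕜) :
    z ∈ closure ((Submodule.span 𝕜 (Set.range (e : Idx → X 𝕜)) : Submodule 𝕜 (X 𝕜)) : Set (X 𝕜)) := by
  have h := hasSum_e z
  refine mem_closure_of_tendsto h (Eventually.of_forall fun s => ?_)
  exact Submodule.sum_mem _ fun v _ => Submodule.smul_mem _ _ (Submodule.subset_span ⟨v, rfl⟩)

lemma dense_of_e (S : Submodule 𝕜 (X 𝕜)) (h : ∀ v, (e v : X 𝕜) ∈ closure (S : Set (X 𝕜))) :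
    Dense (S : Set (X 𝕜)) := by
  intro z
  have h1 : Submodule.span 𝕜 (Set.range (e : Idx → X 𝕜)) ≤ S.topologicalClosure := by
    rw [Submodule.span_le]
    rintro _ ⟨v, rfl⟩
    exact h v
  have h2 := closure_mono (SetLike.coe_subset_coe.mpr h1) (mem_closure_span z)
  rw [Submodule.topologicalClosure_coe, closure_closure] at h2
  exact h2

instance : TopologicalSpace.SeparableSpace (X 𝕜) := by
  rw [← TopologicalSpace.isSeparable_univ_iff]
  have h1 : TopologicalSpace.IsSeparable (Set.range (e : Idx → X 𝕜)) :=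
    (Set.countable_range _).isSeparable
  have h2 := (h1.span (R := 𝕜)).closure
  exact h2.mono fun z _ => mem_closure_span z

/-- The images of the unit vectors. -/
noncomputable def t : Idx → X 𝕜
  | [] => 0
  | (l, i) :: u =>
      if i = 0 then 0
      else if i ≤ 2 * l then e ((l, i - 1) :: u)
      else if i = 2 * l + 1 ∧ p u < l then
        (a l : 𝕜) • (e u + (δ l : 𝕜) • e ((l, 2 * l) :: u))
      else 0

lemma t_nil : (t [] : X 𝕜) = 0 := rfl

lemma t_bottom (l : ℕ) (u : Idx) : (t ((l, 0) :: u) : X 𝕜) = 0 := by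
  rw [t, if_pos rfl]

lemma t_chain (l i : ℕ) (u : Idx) (h : i + 1 ≤ 2 * l) :
    (t ((l, i + 1) :: u) : X 𝕜) = e ((l, i) :: u) := by
  rw [t, if_neg (by omega), if_pos h]
  rfl

lemma t_edge (l : ℕ) (u : Idx) (h : p u < l) :
    (t ((l, 2 * l + 1) :: u) : X 𝕜) = (a l : 𝕜) • (e u + (δ l : 𝕜) • e ((l, 2 * l) :: u)) := by
  rw [t, if_neg (by omega), if_neg (by omega), if_pos ⟨rfl, h⟩]

lemma t_other (l i : ℕ) (u : Idx) (h0 : ¬ i = 0) (h : ¬ i ≤ 2 * l)
    (h' : ¬ (i = 2 * l + 1 ∧ p u < l)) : (t ((l, i) :: u) : X 𝕜) = 0 := by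
  rw [t, if_neg h0, if_neg h, if_neg h']

lemma t_norm (v : Idx) : ‖(t v : X 𝕜)‖ ≤ 1 := by
  match v with
  | [] => rw [t_nil]; simp
  | (l, 0) :: u => rw [t_bottom]; simp
  | (l, i + 1) :: u =>
    by_cases h : i + 1 ≤ 2 * l
    · rw [t_chain l i u h, norm_e]
    · by_cases h' : i + 1 = 2 * l + 1 ∧ p u < l
      · obtain ⟨h1, h2⟩ := h'
        rw [h1, t_edge l u h2, norm_smul, RCLike.norm_ofReal, abs_of_pos (a_pos l)]
        have h3 : ‖(e u + (δ l : 𝕜) • e ((l, 2 * l) :: u) : X 𝕜)‖ ≤ 2 := by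
          refine (norm_add_le _ _).trans ?_
          rw [norm_smul, norm_e, norm_e, RCLike.norm_ofReal, abs_of_pos (δ_pos l)]
          have := δ_le l
          linarith
        have h4 := a_le l
        have h5 := a_pos l
        nlinarith [norm_nonneg (e u + (δ l : 𝕜) • e ((l, 2 * l) :: u) : X 𝕜)]
      · rw [t_other l (i + 1) u (by omega) h h']
        simp

variable (𝕜) in
/-- The operator. -/
noncomputable def T : X 𝕜 →L[𝕜] X 𝕜 := Classical.choose (exists_lift (𝕜 := 𝕜) t 1 t_norm)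

lemma T_e (v : Idx) : T 𝕜 (e v) = t v :=
  Classical.choose_spec (exists_lift (𝕜 := 𝕜) t 1 t_norm) v

lemma value (n : ℕ) (φ : X 𝕜 →L[𝕜] 𝕜) (hφ : ∀ v, φ (e v) = (F n v 0 : 𝕜)) :
    ∀ (j : ℕ) (v : Idx), φ (((1 + T 𝕜) ^ j) (e v)) = (F n v j : 𝕜) := by
  intro j
  induction j with
  | zero => intro v; simpa using hφ v
  | succ j ih =>
    intro v
    rw [pow_succ, mul_apply_eq_comp]
    have h0 : (1 + T 𝕜) (e v) = e v + t v := by
      rw [← T_e v]; rfl
    rw [h0, map_add, map_add, ih]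
    match v with
    | [] => rw [t_nil, map_zero, map_zero, add_zero]; rfl
    | (l, 0) :: u =>
      rw [t_bottom, map_zero, map_zero, add_zero, F_chain n l 0 u (by omega),
        F_chain n l 0 u (by omega), Nat.sub_zero, G_succ, G_top, add_zero]
    | (l, i + 1) :: u =>
      by_cases h : i + 1 ≤ 2 * l
      · rw [t_chain l i u h, ih, F_chain n l (i + 1) u h, F_chain n l i u (by omega),
          F_chain n l (i + 1) u h, G_succ]
        have : 2 * l - i = 2 * l - (i + 1) + 1 := by omega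
        rw [this]
        push_cast
        ring
      · by_cases h' : i + 1 = 2 * l + 1 ∧ p u < l
        · obtain ⟨h1, h2⟩ := h'
          rw [h1, t_edge l u h2, map_smul, map_smul, map_add, map_add, map_smul, map_smul, ih, ih,
            F_edge n l u h2, F_edge n l u h2, F_chain n l (2 * l) u le_rfl,
            Finset.sum_range_succ, Nat.sub_self]
          push_cast
          simp only [smul_eq_mul]
        · rw [t_other l (i + 1) u (by omega) h h', map_zero, map_zero, add_zero,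
            F_other n l (i + 1) u h h', F_other n l (i + 1) u h h']

lemma main_ineq : ∃ ε : X 𝕜 →L[𝕜] 𝕜, ε (e []) = 1 ∧ (∀ z, ‖ε z‖ ≤ ‖z‖) ∧
    ∀ (n : ℕ) (z : X 𝕜), ‖ε (((1 + T 𝕜) ^ n) z)‖ ≤ ‖z‖ + 1 / 4 * ‖((1 + T 𝕜) ^ n) z‖ := by
  classical
  obtain ⟨ε, hε⟩ := exists_lift (𝕜 := 𝕜) (fun v : Idx => if v = [] then (1 : 𝕜) else 0) 1
    (fun v => by split_ifs <;> simp)
  have hε1 : ∀ z, ‖ε z‖ ≤ ‖z‖ := by
    intro z
    have := op_bound ε 1 (fun v => by rw [hε]; split_ifs <;> simp) z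
    linarith
  refine ⟨ε, by rw [hε]; simp, hε1, ?_⟩
  intro n z
  rcases Nat.eq_zero_or_pos n with rfl | hn
  · have h1 := hε1 z
    simp only [pow_zero]
    have h2 : ((1 : X 𝕜 →L[𝕜] X 𝕜)) z = z := rfl
    rw [h2]
    have := norm_nonneg z
    linarith
  · obtain ⟨φ, hφ⟩ := exists_lift (𝕜 := 𝕜) (fun v : Idx => (F n v 0 : 𝕜)) 1 (fun v => by
      rw [RCLike.norm_ofReal]
      by_cases hv : v = []
      · subst hv; rw [F_nil]; simp
      · exact (F_zero n hn v hv).trans (by norm_num))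
    have h1 := op_bound (φ.comp ((1 + T 𝕜) ^ n)) 1 (fun v => by
      rw [ContinuousLinearMap.comp_apply, value n φ hφ, RCLike.norm_ofReal]
      exact F_n n hn v) z
    rw [ContinuousLinearMap.comp_apply, one_mul] at h1
    have h2 := op_bound (ε - φ) (1 / 4) (fun v => by
      rw [_root_.sub_apply, hε, hφ]
      by_cases hv : v = []
      · subst hv; rw [F_nil]; simp
      · rw [if_neg hv, zero_sub, norm_neg, RCLike.norm_ofReal]
        exact F_zero n hn v hv) (((1 + T 𝕜) ^ n) z)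
    rw [_root_.sub_apply] at h2
    have h3 : ε (((1 + T 𝕜) ^ n) z) = φ (((1 + T 𝕜) ^ n) z) +
        (ε (((1 + T 𝕜) ^ n) z) - φ (((1 + T 𝕜) ^ n) z)) := by ring
    rw [h3]
    exact (norm_add_le _ _).trans (add_le_add h1 h2)

lemma pow_zero_of_le {n m : ℕ} (h : n ≤ m) {x : X 𝕜} (hx : ((T 𝕜) ^ n) x = 0) :
    ((T 𝕜) ^ m) x = 0 := by
  obtain ⟨k, rfl⟩ := Nat.exists_eq_add_of_le h
  rw [add_comm, pow_add, mul_apply_eq_comp, hx, map_zero]

lemma nilp_chain (l : ℕ) (u : Idx) : ∀ i ≤ 2 * l, ∃ n : ℕ, ((T 𝕜) ^ n) (e ((l, i) :: u)) = 0 := by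
  intro i
  induction i with
  | zero => intro _; exact ⟨1, by rw [pow_one, T_e, t_bottom]⟩
  | succ i ih =>
    intro hi
    obtain ⟨n, hn⟩ := ih (by omega)
    exact ⟨n + 1, by rw [pow_succ, mul_apply_eq_comp, T_e, t_chain l i u hi, hn]⟩

lemma nilp (v : Idx) : ∃ n : ℕ, ((T 𝕜) ^ n) (e v) = 0 := by
  induction v with
  | nil => exact ⟨1, by rw [pow_one, T_e, t_nil]⟩
  | cons x u ih =>
    obtain ⟨l, i⟩ := x
    by_cases h : i ≤ 2 * l
    · exact nilp_chain l u i h
    · by_cases h' : i = 2 * l + 1 ∧ p u < l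
      · obtain ⟨rfl, hl⟩ := h'
        obtain ⟨n, hn⟩ := ih
        obtain ⟨m, hm⟩ := nilp_chain (𝕜 := 𝕜) l u (2 * l) le_rfl
        refine ⟨max n m + 1, ?_⟩
        rw [pow_succ, mul_apply_eq_comp, T_e, t_edge l u hl, map_smul, map_add, map_smul,
          pow_zero_of_le (le_max_left n m) hn, pow_zero_of_le (le_max_right n m) hm]
        simp
      · exact ⟨1, by rw [pow_one, T_e, t_other l i u (by omega) h h']⟩

lemma dense_gen_kernel : Dense {x : X 𝕜 | ∃ n : ℕ, 1 ≤ n ∧ ((T 𝕜) ^ n) x = 0} := by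
  let S : Submodule 𝕜 (X 𝕜) :=
    { carrier := {x : X 𝕜 | ∃ n : ℕ, 1 ≤ n ∧ ((T 𝕜) ^ n) x = 0}
      add_mem' := by
        rintro x y ⟨n, hn1, hn⟩ ⟨m, hm1, hm⟩
        refine ⟨max n m, le_max_of_le_left hn1, ?_⟩
        rw [map_add, pow_zero_of_le (le_max_left n m) hn, pow_zero_of_le (le_max_right n m) hm,
          add_zero]
      zero_mem' := ⟨1, le_rfl, map_zero _⟩
      smul_mem' := by
        rintro r x ⟨n, hn1, hn⟩
        exact ⟨n, hn1, by rw [map_smul, hn, smul_zero]⟩ }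
  exact dense_of_e S fun v => by
    obtain ⟨n, hn⟩ := nilp (𝕜 := 𝕜) v
    exact subset_closure ⟨n + 1, by omega, pow_zero_of_le (by omega) hn⟩

lemma dense_range : DenseRange (T 𝕜) := by
  have h := dense_of_e (LinearMap.range (T 𝕜 : X 𝕜 →ₗ[𝕜] X 𝕜)) fun v => by
    rw [Metric.mem_closure_iff]
    intro r hr
    obtain ⟨l0, hl0⟩ := exists_nat_one_div_lt hr
    let l := max l0 (p v + 1)
    have hl : p v < l := lt_of_lt_of_le (Nat.lt_succ_self _) (le_max_right _ _)
    refine ⟨T 𝕜 ((((a l)⁻¹ : ℝ) : 𝕜) • (e ((l, 2 * l + 1) :: v) : X 𝕜)), ⟨_, rfl⟩, ?_⟩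
    have ha : ((a l : ℝ) : 𝕜) ≠ 0 := by exact_mod_cast (a_pos l).ne'
    have h1 : T 𝕜 ((((a l)⁻¹ : ℝ) : 𝕜) • (e ((l, 2 * l + 1) :: v) : X 𝕜)) =
        e v + (δ l : 𝕜) • e ((l, 2 * l) :: v) := by
      rw [map_smul, T_e, t_edge l v hl, smul_smul, RCLike.ofReal_inv, inv_mul_cancel₀ ha, one_smul]
    rw [h1, dist_eq_norm]
    have h2 : (e v : X 𝕜) - (e v + (δ l : 𝕜) • e ((l, 2 * l) :: v)) =
        -((δ l : 𝕜) • e ((l, 2 * l) :: v)) := by abel
    rw [h2, norm_neg, norm_smul, norm_e, RCLike.norm_ofReal, abs_of_pos (δ_pos l), mul_one]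
    refine lt_of_le_of_lt ?_ hl0
    unfold δ
    apply one_div_le_one_div_of_le (by positivity)
    have : (l0 : ℝ) ≤ l := by exact_mod_cast le_max_left _ _
    linarith
  intro x
  have hx := h x
  rw [LinearMap.coe_range] at hx
  exact hx

end space

/-- `S` is hypercyclic: some orbit is dense. -/
def Hypercyclic {𝕜 Y : Type*} [RCLike 𝕜] [NormedAddCommGroup Y] [NormedSpace 𝕜 Y]
    (S : Y →L[𝕜] Y) : Prop :=
  ∃ x : Y, Dense (Set.range fun n : ℕ => (S ^ n) x)

/-- `S` is topologically mixing. -/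
def Mixing {𝕜 Y : Type*} [RCLike 𝕜] [NormedAddCommGroup Y] [NormedSpace 𝕜 Y]
    (S : Y →L[𝕜] Y) : Prop :=
  ∀ U V : Set Y, IsOpen U → U.Nonempty → IsOpen V → V.Nonempty →
    ∃ N : ℕ, ∀ n ≥ N, (((S ^ n) '' U) ∩ V).Nonempty

/-- There is a nonzero separable Banach space over `𝕜` and a bounded operator `T` on it with dense
range and dense generalized kernel such that `I + T` is neither mixing nor hypercyclic. -/
def Counterexample (𝕜 : Type) [RCLike 𝕜] : Prop :=
  ∃ (Y : Type) (_ : NormedAddCommGroup Y) (_ : NormedSpace 𝕜 Y) (_ : CompleteSpace Y)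
    (_ : TopologicalSpace.SeparableSpace Y) (_ : Nontrivial Y) (T : Y →L[𝕜] Y),
    DenseRange T ∧ Dense {x : Y | ∃ n : ℕ, 1 ≤ n ∧ (T ^ n) x = 0} ∧
      ¬ Mixing (1 + T) ∧ ¬ Hypercyclic (1 + T)

theorem counterexample (𝕜 : Type) [RCLike 𝕜] : Counterexample 𝕜 := by
  have hnt : Nontrivial (X 𝕜) := ⟨⟨e [], 0, fun h => by
    have := norm_e (𝕜 := 𝕜) []
    rw [h, norm_zero] at this
    exact zero_ne_one this⟩⟩
  refine ⟨X 𝕜, inferInstance, inferInstance, inferInstance, inferInstance, hnt, T 𝕜,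
    dense_range, dense_gen_kernel, ?_, ?_⟩
  · intro h
    obtain ⟨ε, hε1, hε2, hε3⟩ := main_ineq (𝕜 := 𝕜)
    obtain ⟨N, hN⟩ := h (Metric.ball 0 1) (Metric.ball (((4 : ℝ) : 𝕜) • (e [] : X 𝕜)) 1)
      Metric.isOpen_ball ⟨0, Metric.mem_ball_self one_pos⟩ Metric.isOpen_ball
      ⟨_, Metric.mem_ball_self one_pos⟩
    obtain ⟨y, ⟨z, hz, hzy⟩, hy⟩ := hN N le_rfl
    rw [mem_ball_zero_iff] at hz
    rw [Metric.mem_ball, dist_eq_norm] at hy
    have h1 := hε3 N z
    rw [hzy] at h1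
    have h2 := hε2 (y - ((4 : ℝ) : 𝕜) • (e [] : X 𝕜))
    have h3 : ‖ε (((4 : ℝ) : 𝕜) • (e [] : X 𝕜))‖ = 4 := by
      rw [map_smul, hε1, smul_eq_mul, mul_one, RCLike.norm_ofReal]
      norm_num
    have h4 : ‖((4 : ℝ) : 𝕜) • (e [] : X 𝕜)‖ = 4 := by
      rw [norm_smul, norm_e, mul_one, RCLike.norm_ofReal]
      norm_num
    rw [map_sub] at h2
    have h5 := norm_sub_norm_le (ε (((4 : ℝ) : 𝕜) • (e [] : X 𝕜))) (ε y)
    rw [norm_sub_rev] at h5
    have h6 := norm_sub_norm_le y (((4 : ℝ) : 𝕜) • (e [] : X 𝕜))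
    linarith
  · rintro ⟨z, hz⟩
    obtain ⟨ε, hε1, hε2, hε3⟩ := main_ineq (𝕜 := 𝕜)
    set M : ℝ := 2 * ‖z‖ + 4 with hM
    have hM0 : 0 ≤ M := by positivity
    obtain ⟨y, hy, ⟨n, rfl⟩⟩ := Metric.dense_iff.mp hz ((M : 𝕜) • (e [] : X 𝕜)) 1 one_pos
    rw [Metric.mem_ball, dist_eq_norm] at hy
    have h1 := hε3 n z
    simp only at hy
    set y := ((1 + T 𝕜) ^ n) z with hydef
    have h2 := hε2 (y - (M : 𝕜) • (e [] : X 𝕜))
    have h3 : ‖ε ((M : 𝕜) • (e [] : X 𝕜))‖ = M := by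
      rw [map_smul, hε1, smul_eq_mul, mul_one, RCLike.norm_ofReal, abs_of_nonneg hM0]
    have h4 : ‖(M : 𝕜) • (e [] : X 𝕜)‖ = M := by
      rw [norm_smul, norm_e, mul_one, RCLike.norm_ofReal, abs_of_nonneg hM0]
    rw [map_sub] at h2
    have h5 := norm_sub_norm_le (ε ((M : 𝕜) • (e [] : X 𝕜))) (ε y)
    rw [norm_sub_rev] at h5
    have h6 := norm_sub_norm_le y ((M : 𝕜) • (e [] : X 𝕜))
    linarith [norm_nonneg z]

/-- **Main result.** Negative answers to Q1 and Q2, over both scalar fields. -/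
theorem result : Counterexample ℝ ∧ Counterexample ℂ :=
  ⟨counterexample ℝ, counterexample ℂ⟩

end Pool.Agent.Results.MP_550623_an.NotHypercyclic
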